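import Pool.Agent.X34.CY.Stm

/-! Part CY_SM for MP_6efeb4_pr. -/

set_option autoImplicit false

namespace Pool.Agent.X69.CY

open Finset Pool.Agent.X34.CY

section

variable {G : Type} [AddCommGroup G] [Fintype G] [DecidableEq G] {k : ℕ}

def X (W : Finset (Fin k → ℤ)) (zu : (Fin k → G) × G) : ℕ :=
  (W.filter fun w => ∑ i, w i • zu.1 i = zu.2).card

omit [Fintype G] in
theorem X_eq (W : Finset (Fin k → ℤ)) (zu : (Fin k → G) × G) :
    X W zu = ∑ w ∈ W, if ∑ i, w i • zu.1 i = zu.2 then 1 else 0 := by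
  unfold X
  rw [Finset.card_filter]

theorem sum_X (W : Finset (Fin k → ℤ)) :
    ∑ zu : (Fin k → G) × G, X W zu = W.card * Fintype.card G ^ k := by
  simp only [X_eq]
  rw [Finset.sum_comm]
  have : ∀ w ∈ W, ∑ zu : (Fin k → G) × G, (if ∑ i, w i • zu.1 i = zu.2 then 1 else 0) =
      Fintype.card G ^ k := by
    intro w _
    rw [Fintype.sum_prod_type]
    simp only [Finset.sum_ite_eq, Finset.mem_univ, if_true]
    simp
  rw [Finset.sum_congr rfl this, Finset.sum_const, smul_eq_mul]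

theorem sum_X2 (W : Finset (Fin k → ℤ)) :
    ∑ zu : (Fin k → G) × G, X W zu ^ 2 = ∑ w ∈ W, ∑ w' ∈ W,
      (univ.filter fun z : Fin k → G => ∑ i, (w i - w' i) • z i = 0).card := by
  have h1 : ∀ zu : (Fin k → G) × G, X W zu ^ 2 = ∑ w ∈ W, ∑ w' ∈ W,
      (if ∑ i, w i • zu.1 i = zu.2 then (if ∑ i, w' i • zu.1 i = zu.2 then 1 else 0) else 0) := by
    intro zu
    rw [X_eq, sq, Finset.sum_mul_sum]
    refine Finset.sum_congr rfl fun w _ => Finset.sum_congr rfl fun w' _ => ?_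
    split_ifs <;> simp
  simp only [h1]
  rw [Finset.sum_comm]
  refine Finset.sum_congr rfl fun w _ => ?_
  rw [Finset.sum_comm]
  refine Finset.sum_congr rfl fun w' _ => ?_
  rw [Fintype.sum_prod_type, Finset.card_filter]
  refine Finset.sum_congr rfl fun z _ => ?_
  dsimp only
  rw [Finset.sum_ite_eq]
  simp only [Finset.mem_univ, if_true]
  have : (∑ i, (w i - w' i) • z i = 0) ↔ ∑ i, w' i • z i = ∑ i, w i • z i := by
    simp only [sub_smul, Finset.sum_sub_distrib]
    rw [sub_eq_zero]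
    exact eq_comm
  simp only [this]

theorem gcd_pos {w w' : Fin k → ℤ} (h : w ≠ w') :
    1 ≤ univ.gcd fun i => (w i - w' i).natAbs := by
  rw [Nat.one_le_iff_ne_zero]
  intro h0
  rw [Finset.gcd_eq_zero_iff] at h0
  apply h
  funext i
  have := h0 i (Finset.mem_univ i)
  rw [Int.natAbs_eq_zero, sub_eq_zero] at this
  exact this

theorem bound (hG : S_GRP) (W : Finset (Fin k → ℤ)) (M : ℕ) (B : ℕ → ℕ)
    (hM : ∀ w ∈ W, ∀ w' ∈ W, w ≠ w' → (univ.gcd fun i => (w i - w' i).natAbs) ≤ M)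
    (hB : ∀ g : ℕ, 2 ≤ g → ∀ w ∈ W, (W.filter fun w' => ∀ i, (g : ℤ) ∣ w' i - w i).card ≤ B g)
    {w : Fin k → ℤ} (hw : w ∈ W) :
    ∑ w' ∈ W, (univ.filter fun z : Fin k → G => ∑ i, (w i - w' i) • z i = 0).card *
      Fintype.card G ≤ Fintype.card G ^ k * (Fintype.card G + W.card +
        ∑ g ∈ Icc 2 M, min (g ^ dG G) (Fintype.card G) * B g) := by
  have h1 : ∀ w' ∈ W, (univ.filter fun z : Fin k → G => ∑ i, (w i - w' i) • z i = 0).card *
      Fintype.card G ≤ Fintype.card G ^ k * ((if w' = w then Fintype.card G else 0) + 1 +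
        ∑ g ∈ Icc 2 M, min (g ^ dG G) (Fintype.card G) *
          (if ∀ i, (g : ℤ) ∣ w' i - w i then 1 else 0)) := by
    intro w' hw'
    by_cases he : w' = w
    · subst he
      have e1 : (univ.filter fun z : Fin k → G => ∑ i, (w' i - w' i) • z i = 0).card =
          Fintype.card G ^ k := by
        rw [Finset.filter_true_of_mem]
        · simp
        · intro z _
          simp
      rw [e1, if_pos rfl]
      apply Nat.mul_le_mul_left
      omega
    · have hne : w ≠ w' := fun h => he h.symm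
      have h2 := hG G k (fun i => w i - w' i) (fun h0 => hne (by
        funext i
        have := congrFun h0 i
        simp only [Pi.zero_apply, sub_eq_zero] at this
        exact this))
      refine h2.trans ?_
      rw [mul_comm]
      apply Nat.mul_le_mul_left
      have hg1 := gcd_pos hne
      have hgM := hM w hw w' hw' hne
      obtain ⟨g, hg⟩ : ∃ g, g = univ.gcd fun i => (w i - w' i).natAbs := ⟨_, rfl⟩
      rw [← hg] at hg1 hgM ⊢
      rw [if_neg he]
      rcases Nat.eq_or_lt_of_le hg1 with hg2 | hg2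
      · rw [← hg2, one_pow]
        have := min_le_left 1 (Fintype.card G)
        omega
      · have hmem : g ∈ Icc 2 M := Finset.mem_Icc.2 ⟨hg2, hgM⟩
        have h3 := Finset.single_le_sum (f := fun g : ℕ => min (g ^ dG G) (Fintype.card G) *
          (if ∀ i, (g : ℤ) ∣ w' i - w i then 1 else 0)) (fun _ _ => Nat.zero_le _) hmem
        have h4 : ∀ i, (g : ℤ) ∣ w' i - w i := by
          intro i
          have h5 : g ∣ (w i - w' i).natAbs := by
            rw [hg]
            exact Finset.gcd_dvd (Finset.mem_univ i)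
          have h6 : (g : ℤ) ∣ w i - w' i := Int.natCast_dvd.2 h5
          rw [← neg_sub]
          exact (dvd_neg).2 h6
        simp only [h4, implies_true, if_true, mul_one] at h3
        exact h3.trans (Nat.le_add_left _ _)
  refine (Finset.sum_le_sum h1).trans ?_
  rw [← Finset.mul_sum]
  apply Nat.mul_le_mul_left
  rw [Finset.sum_add_distrib, Finset.sum_add_distrib, Finset.sum_ite_eq' W w, if_pos hw,
    Finset.sum_const, smul_eq_mul, mul_one, Finset.sum_comm]
  apply Nat.add_le_add_left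
  apply Finset.sum_le_sum
  intro g hg
  rw [← Finset.mul_sum]
  apply Nat.mul_le_mul_left
  rw [← Finset.card_filter]
  exact hB g (Finset.mem_Icc.1 hg).1 w hw

end

theorem t_SM : S_SM := by
  intro hG G _ _ _ k W M B hW hM hB
  obtain ⟨n, hn⟩ : ∃ n, n = Fintype.card G := ⟨_, rfl⟩
  obtain ⟨Sg, hSg⟩ : ∃ Sg, Sg = ∑ g ∈ Icc 2 M, min (g ^ dG G) (Fintype.card G) * B g :=
    ⟨_, rfl⟩
  obtain ⟨S2, hS2⟩ : ∃ S2, S2 = ∑ zu : (Fin k → G) × G, X W zu ^ 2 := ⟨_, rfl⟩
  obtain ⟨N1, hN1⟩ : ∃ N1, N1 = (univ.filter fun zu : (Fin k → G) × G => X W zu ≠ 0).card :=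
    ⟨_, rfl⟩
  obtain ⟨N0, hN0⟩ : ∃ N0, N0 = (univ.filter fun zu : (Fin k → G) × G =>
    ∀ w ∈ W, ∑ i, w i • zu.1 i ≠ zu.2).card := ⟨_, rfl⟩
  have hn0 : 0 < n := by rw [hn]; exact Fintype.card_pos
  have hA : 0 < W.card := hW.card_pos
  have e1 : S2 * n ≤ n ^ k * (W.card * (n + W.card + Sg)) := by
    rw [hS2, sum_X2, Finset.sum_mul]
    have := Finset.sum_le_sum (s := W) fun w hw => bound (G := G) hG W M B hM hB hw
    rw [Finset.sum_const, smul_eq_mul, ← hSg, ← hn] at this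
    refine (le_of_eq ?_).trans (this.trans (le_of_eq (by ring)))
    refine Finset.sum_congr rfl fun w _ => ?_
    rw [Finset.sum_mul]
  have e2 : (W.card * n ^ k) ^ 2 ≤ N1 * S2 := by
    have h1 := sum_X (G := G) W
    rw [← hn] at h1
    have h2 : ∑ zu ∈ univ.filter (fun zu : (Fin k → G) × G => X W zu ≠ 0), X W zu =
        ∑ zu : (Fin k → G) × G, X W zu := Finset.sum_filter_ne_zero _
    have h3 : (∑ zu ∈ univ.filter (fun zu : (Fin k → G) × G => X W zu ≠ 0), X W zu) ^ 2 ≤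
        (univ.filter (fun zu : (Fin k → G) × G => X W zu ≠ 0)).card *
          ∑ zu ∈ univ.filter (fun zu : (Fin k → G) × G => X W zu ≠ 0), X W zu ^ 2 :=
      sq_sum_le_card_mul_sum_sq
    rw [h2, h1, ← hN1] at h3
    refine h3.trans (Nat.mul_le_mul_left _ ?_)
    rw [hS2]
    exact Finset.sum_le_sum_of_subset (Finset.filter_subset _ _)
  have e3 : N0 + N1 = n ^ (k + 1) := by
    have h1 : ∀ zu : (Fin k → G) × G, (∀ w ∈ W, ∑ i, w i • zu.1 i ≠ zu.2) ↔ ¬ (X W zu ≠ 0) := by
      intro zu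
      unfold X
      rw [not_not, Finset.card_eq_zero, Finset.filter_eq_empty_iff]
    rw [hN0, hN1]
    simp only [h1]
    rw [add_comm, Finset.card_filter_add_card_filter_not]
    rw [Finset.card_univ, Fintype.card_prod, Fintype.card_fun, Fintype.card_fin, ← hn]
    ring
  have f1 : (S2 : ℝ) * n ≤ n ^ k * (W.card * (n + W.card + Sg)) := by exact_mod_cast e1
  have f2 : ((W.card : ℝ) * n ^ k) ^ 2 ≤ N1 * S2 := by exact_mod_cast e2
  have f3 : (N0 : ℝ) + N1 = n ^ (k + 1) := by exact_mod_cast e3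
  have hn' : (0 : ℝ) < n := by exact_mod_cast hn0
  have hA' : (0 : ℝ) < W.card := by exact_mod_cast hA
  have hnk : (0 : ℝ) < (n : ℝ) ^ k := pow_pos hn' k
  have g1 : (n : ℝ) ^ (k + 1) * W.card ≤ N1 * (n + W.card + Sg) := by
    have h1 : ((W.card : ℝ) * n ^ k) ^ 2 * n ≤ N1 * (n ^ k * (W.card * (n + W.card + Sg))) := by
      calc ((W.card : ℝ) * n ^ k) ^ 2 * n ≤ N1 * S2 * n := by
            exact mul_le_mul_of_nonneg_right f2 hn'.le
        _ = N1 * (S2 * n) := by ring
        _ ≤ _ := mul_le_mul_of_nonneg_left f1 (Nat.cast_nonneg _)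
    have h2 : (n : ℝ) ^ k * W.card * (n ^ (k + 1) * W.card) ≤
        n ^ k * W.card * (N1 * (n + W.card + Sg)) := by
      calc (n : ℝ) ^ k * W.card * (n ^ (k + 1) * W.card) = ((W.card : ℝ) * n ^ k) ^ 2 * n := by
            ring
        _ ≤ _ := h1
        _ = _ := by ring
    exact le_of_mul_le_mul_left h2 (mul_pos hnk hA')
  have g2 : (N0 : ℝ) * W.card ≤ n ^ (k + 1) * (n + Sg) := by
    have h1 : (N0 : ℝ) * W.card ≤ N1 * (n + Sg) := by nlinarith
    have h2 : (N1 : ℝ) ≤ n ^ (k + 1) := by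
      rw [← f3]
      linarith [Nat.cast_nonneg (α := ℝ) N0]
    refine h1.trans (mul_le_mul_of_nonneg_right h2 ?_)
    positivity
  rw [← hN0, ← hn]
  have g3 : (n : ℝ) / W.card + ∑ g ∈ Icc 2 M, ((min (g ^ dG G) n : ℕ) : ℝ) * (B g : ℝ) / W.card =
      (n + Sg) / W.card := by
    rw [← Finset.sum_div, ← add_div, hSg, ← hn]
    push_cast
    rfl
  rw [g3, ← mul_div_assoc, le_div_iff₀ hA']
  exact g2

end Pool.Agent.X69.CY
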